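import Pool.Agent.Helper29.CY.Goals

/-!
# Project CY, packet ELL

Members non-rigid with both ends of a rigid pair.
-/

set_option autoImplicit false

open Module

namespace Pool.Agent.Helper15.CY.ELL

open Pool.Agent.Helper29.CY

theorem le_one_of_le_span {V : Type} [NormedAddCommGroup V] [InnerProductSpace ℝ V]
    (P : Submodule ℝ V) (e : V) (h : P ≤ Submodule.span ℝ {e}) : finrank ℝ P ≤ 1 := by
  haveI : FiniteDimensional ℝ (Submodule.span ℝ {e}) := FiniteDimensional.span_singleton ℝ e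
  exact (Submodule.finrank_mono h).trans (by
    have := finrank_span_le_card (R := ℝ) ({e} : Set V)
    simpa using this)

theorem alg (a h k : ℝ) (h1 : 1 ≤ a ^ 2 + (h - k) ^ 2) (h2 : 1 ≤ a ^ 2 + (h + k) ^ 2) :
    1 ≤ a ^ 2 + (|h| - |k|) ^ 2 := by
  rcases le_total 0 h with hh | hh <;> rcases le_total 0 k with hk | hk
  · rw [abs_of_nonneg hh, abs_of_nonneg hk]; linarith
  · rw [abs_of_nonneg hh, abs_of_nonpos hk]; nlinarith
  · rw [abs_of_nonpos hh, abs_of_nonneg hk]; nlinarith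
  · rw [abs_of_nonpos hh, abs_of_nonpos hk]; nlinarith

theorem t (hLA : S_LA) (hBAS : S_BAS) (hNBR : S_NBR) : Pool.Agent.Helper29.CY.S_ELL := by
  intro n V _ _ N u hC i k l hik hli hlk
  obtain ⟨_, LA2, LA3, LA4⟩ := hLA
  obtain ⟨hne, hek, hee, hspan⟩ := hik
  have hel : u i ∈ N l := (hNBR n V N u hC).2.2.1 i k l ⟨hne, hek, hee, hspan⟩ hli hlk
  have hei : u i ∈ N i := hC.mem i
  have h1 : finrank ℝ ↥(N i ⊓ N k) ≤ 1 := le_one_of_le_span _ _ hspan
  have hlk2 : 2 ≤ finrank ℝ ↥(N l ⊓ N k) := hlk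
  have hli2 : 2 ≤ finrank ℝ ↥(N l ⊓ N i) := hli
  have hNli : N l ≠ N i := by
    intro h
    rw [h] at hlk2
    omega
  have hNlk : N l ≠ N k := by
    intro h
    rw [h, inf_comm] at hli2
    omega
  have hl3 := hC.dim l
  have e1 : finrank ℝ ↥(N l ⊓ N i) = 2 := le_antisymm (LA2 V _ _ hl3 (hC.dim i) hNli) hli2
  have e2 : finrank ℝ ↥(N l ⊓ N k) = 2 := le_antisymm (LA2 V _ _ hl3 (hC.dim k) hNlk) hlk2
  obtain ⟨x, hx, hxn, hex, hxs⟩ := LA3 V (N l ⊓ N i) (u i) e1 ⟨hel, hei⟩ (hC.nrm i)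
  obtain ⟨y, hy, hyn, hey, hys⟩ := LA3 V (N l ⊓ N k) (u i) e2 ⟨hel, hek⟩ (hC.nrm i)
  have hsp : N l ≤ Submodule.span ℝ {u i, x, y} := by
    have h := LA4 V (N l) (N l ⊓ N i) (N l ⊓ N k) hl3 inf_le_left inf_le_left hli2 hlk2
      (le_one_of_le_span _ (u i) (fun z hz => hspan ⟨hz.1.2, hz.2.2⟩))
    refine h.trans (sup_le (hxs.trans ?_) (hys.trans ?_))
    · refine Submodule.span_mono ?_
      intro z hz
      rcases hz with hz | hz
      · exact Or.inl hz
      · exact Or.inr (Or.inl hz)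
    · refine Submodule.span_mono ?_
      intro z hz
      rcases hz with hz | hz
      · exact Or.inl hz
      · exact Or.inr (Or.inr hz)
  have hF : Frame N u i k l x y :=
    ⟨hx.2, hx.1, hy.2, hy.1, hxn, hyn, hex, hey, hel, hxs, hys, hsp⟩
  have hlki : l ≠ k := fun h => hNlk (by rw [h])
  have hlii : l ≠ i := fun h => hNli (by rw [h])
  have hPI := (hBAS n V N u hC l k hlki).2.2.1 (u i) y (hC.nrm i) hyn hey hys
  have hke : inner ℝ (u k) (u i) = 0 := by rw [real_inner_comm]; exact hee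
  have hhalf := (hBAS n V N u hC l i hlii).1
  have hln := hC.nrm l
  have hin := hC.nrm i
  -- the three numbers
  obtain ⟨α, hα⟩ : ∃ α : ℝ, inner ℝ (u l) (u i) = α := ⟨_, rfl⟩
  obtain ⟨η, hη⟩ : ∃ η : ℝ, inner ℝ (u l) y = η := ⟨_, rfl⟩
  obtain ⟨κ, hκ⟩ : ∃ κ : ℝ, inner ℝ (u k) y = κ := ⟨_, rfl⟩
  rw [hα, hη, hκ, hke] at hPI
  rw [hα] at hhalf
  have hq : 1 ≤ α ^ 2 + (|η| - |κ|) ^ 2 := by
    refine alg α η κ ?_ ?_
    · have := hPI.1
      rwa [sub_zero] at this
    · have := hPI.2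
      rwa [add_zero] at this
  have hnorm : ‖u l - (α • u i + η • y)‖ ^ 2 = 1 - α ^ 2 - η ^ 2 := by
    rw [← real_inner_self_eq_norm_sq]
    have e3 : inner ℝ (u i) (u l) = α := by rw [real_inner_comm]; exact hα
    have e4 : inner ℝ y (u l) = η := by rw [real_inner_comm]; exact hη
    have e5 : inner ℝ y (u i) = 0 := by rw [real_inner_comm]; exact hey
    have e6 : inner ℝ (u l) (u l) = (1 : ℝ) := by rw [real_inner_self_eq_norm_sq, hln]; norm_num
    have e7 : inner ℝ (u i) (u i) = (1 : ℝ) := by rw [real_inner_self_eq_norm_sq, hin]; norm_num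
    have e8 : inner ℝ y y = (1 : ℝ) := by rw [real_inner_self_eq_norm_sq, hyn]; norm_num
    simp only [inner_sub_left, inner_sub_right, inner_add_left, inner_add_right,
      real_inner_smul_left, real_inner_smul_right, e3, e4, e5, e6, e7, e8, hα, hη, hey]
    ring
  have hbes : α ^ 2 + η ^ 2 ≤ 1 := by
    have := sq_nonneg ‖u l - (α • u i + η • y)‖
    rw [hnorm] at this
    linarith
  have ha := sq_abs η
  have hk0 := abs_nonneg κ
  have hh0 := abs_nonneg η
  refine ⟨x, y, ?_⟩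
  rcases le_or_gt |κ| |η| with hc | hc
  · left
    have h3 : |κ| = 0 := by
      by_contra hne0
      have hpos : 0 < |κ| := lt_of_le_of_ne hk0 (Ne.symm hne0)
      nlinarith
    have h4 : κ = 0 := abs_eq_zero.1 h3
    have h5 : α ^ 2 + η ^ 2 = 1 := by
      rw [h3, sub_zero] at hq
      linarith
    refine ⟨hF, by rw [hκ, h4], ?_⟩
    have h6 : ‖u l - (α • u i + η • y)‖ ^ 2 = 0 := by rw [hnorm]; linarith
    have h7 : u l - (α • u i + η • y) = 0 := by
      rw [← norm_eq_zero]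
      exact pow_eq_zero_iff (two_ne_zero) |>.1 h6
    rw [hα, hη]
    exact sub_eq_zero.1 h7
  · right
    refine ⟨hF, by rw [hη, hκ]; exact hc, ?_⟩
    rw [hα, hη, hκ]
    nlinarith

end Pool.Agent.Helper15.CY.ELL
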